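import Mathlib

set_option autoImplicit false

namespace Pool.Agent.Results.MP_f10258_co.CompactKirchberger

open Set Metric
open scoped RealInnerProductSpace

/-- The sphere `sphere c r` strictly separates `X` and `Y`: neither set meets the sphere, and one
of them lies in the open ball `ball c r` while the other lies outside the closed ball
`closedBall c r`. -/
def StrictlySeparates {d : ℕ} (c : EuclideanSpace ℝ (Fin d)) (r : ℝ)
    (X Y : Set (EuclideanSpace ℝ (Fin d))) : Prop :=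
  Disjoint X (sphere c r) ∧ Disjoint Y (sphere c r) ∧
    ((X ⊆ ball c r ∧ Y ⊆ (closedBall c r)ᶜ) ∨ (Y ⊆ ball c r ∧ X ⊆ (closedBall c r)ᶜ))

/-- The ordered pair `(X, Y)` is small-sphere separable: some sphere of radius `r ≤ 1` strictly
separates `X` and `Y`, and `X` lies in its open ball. -/
def SmallSphereSeparable {d : ℕ} (X Y : Set (EuclideanSpace ℝ (Fin d))) : Prop :=
  ∃ (c : EuclideanSpace ℝ (Fin d)) (r : ℝ), 0 < r ∧ r ≤ 1 ∧
    StrictlySeparates c r X Y ∧ X ⊆ ball c r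

/-- margin of the point `x` for the sphere with parameters `(c, t)`, `t = r ^ 2 - ‖c‖ ^ 2`. -/
noncomputable def mg {d : ℕ} (x : EuclideanSpace ℝ (Fin d)) (p : EuclideanSpace ℝ (Fin d) × ℝ) : ℝ :=
  p.2 + 2 * ⟪x, p.1⟫ - ‖x‖ ^ 2

lemma mg_eq {d : ℕ} (x : EuclideanSpace ℝ (Fin d)) (p : EuclideanSpace ℝ (Fin d) × ℝ) :
    mg x p = p.2 + ‖p.1‖ ^ 2 - ‖x - p.1‖ ^ 2 := by
  unfold mg
  rw [norm_sub_sq_real]
  ring

/-- admissible parameters: radius at most one -/
def PP (d : ℕ) : Set (EuclideanSpace ℝ (Fin d) × ℝ) := {p | p.2 + ‖p.1‖ ^ 2 ≤ 1}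

/-- signed margin on the sum type -/
noncomputable def gg {d : ℕ} {A B : Set (EuclideanSpace ℝ (Fin d))} (i : A ⊕ B)
    (p : EuclideanSpace ℝ (Fin d) × ℝ) : ℝ :=
  Sum.elim (fun a : A => mg (a : EuclideanSpace ℝ (Fin d)) p)
    (fun b : B => - mg (b : EuclideanSpace ℝ (Fin d)) p) i

lemma continuous_mg_left {d : ℕ} (p : EuclideanSpace ℝ (Fin d) × ℝ) :
    Continuous (fun x : EuclideanSpace ℝ (Fin d) => mg x p) := by
  unfold mg
  fun_prop

lemma continuous_mg_right {d : ℕ} (x : EuclideanSpace ℝ (Fin d)) :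
    Continuous (fun p : EuclideanSpace ℝ (Fin d) × ℝ => mg x p) := by
  unfold mg
  fun_prop

lemma continuous_gg_left {d : ℕ} {A B : Set (EuclideanSpace ℝ (Fin d))}
    (p : EuclideanSpace ℝ (Fin d) × ℝ) :
    Continuous (fun i : A ⊕ B => gg i p) := by
  unfold gg
  apply Continuous.sumElim
  · exact (continuous_mg_left p).comp continuous_subtype_val
  · exact ((continuous_mg_left p).comp continuous_subtype_val).neg

lemma continuous_gg_right {d : ℕ} {A B : Set (EuclideanSpace ℝ (Fin d))} (i : A ⊕ B) :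
    Continuous (fun p : EuclideanSpace ℝ (Fin d) × ℝ => gg i p) := by
  unfold gg
  rcases i with a | b
  · exact continuous_mg_right _
  · exact (continuous_mg_right _).neg

lemma convex_PP (d : ℕ) : Convex ℝ (PP d) := by
  have h1 : ConvexOn ℝ univ (fun p : EuclideanSpace ℝ (Fin d) × ℝ => ‖p.1‖ ^ 2) := by
    have : ConvexOn ℝ univ (fun x : EuclideanSpace ℝ (Fin d) => ‖x‖ ^ 2) :=
      (convexOn_norm convex_univ).pow (fun _ _ => norm_nonneg _) 2
    exact this.comp_linearMap (LinearMap.fst ℝ _ _)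
  have h2 : ConvexOn ℝ univ (fun p : EuclideanSpace ℝ (Fin d) × ℝ => p.2) :=
    (LinearMap.snd ℝ (EuclideanSpace ℝ (Fin d)) ℝ).convexOn convex_univ
  have h3 := (h2.add h1).convex_le 1
  simpa [PP] using h3

lemma closed_PP (d : ℕ) : IsClosed (PP d) := by
  unfold PP
  exact isClosed_le (by fun_prop) continuous_const

lemma mg_convex_combo {d : ℕ} (x : EuclideanSpace ℝ (Fin d))
    (p q : EuclideanSpace ℝ (Fin d) × ℝ) (a b : ℝ) (hab : a + b = 1) :
    mg x (a • p + b • q) = a * mg x p + b * mg x q := by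
  unfold mg
  simp only [Prod.snd_add, Prod.smul_snd, Prod.fst_add, Prod.smul_fst, inner_add_right,
    inner_smul_right, smul_eq_mul]
  have : ‖x‖ ^ 2 = (a + b) * ‖x‖ ^ 2 := by rw [hab, one_mul]
  rw [this]; ring_nf
  have h : b = 1 - a := by linarith
  subst h
  ring

lemma gg_convex_combo {d : ℕ} {A B : Set (EuclideanSpace ℝ (Fin d))} (i : A ⊕ B)
    (p q : EuclideanSpace ℝ (Fin d) × ℝ) (a b : ℝ) (hab : a + b = 1) :
    gg i (a • p + b • q) = a * gg i p + b * gg i q := by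
  rcases i with x | x
  · simp only [gg, Sum.elim_inl]; exact mg_convex_combo _ _ _ _ _ hab
  · simp only [gg, Sum.elim_inr]; rw [mg_convex_combo _ _ _ _ _ hab]; ring

/-- The sets to which Helly's theorem is applied. -/
def FF {d : ℕ} {A B : Set (EuclideanSpace ℝ (Fin d))} (δ : ℝ) (i : A ⊕ B) :
    Set (EuclideanSpace ℝ (Fin d) × ℝ) := PP d ∩ {p | δ ≤ gg i p}

lemma convex_FF {d : ℕ} {A B : Set (EuclideanSpace ℝ (Fin d))} (δ : ℝ) (i : A ⊕ B) :
    Convex ℝ (FF δ i) := by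
  apply (convex_PP d).inter
  intro p hp q hq a b ha hb hab
  simp only [mem_ofPred_eq] at *
  rw [gg_convex_combo _ _ _ _ _ hab]
  calc δ = a * δ + b * δ := by rw [← add_mul, hab, one_mul]
    _ ≤ _ := by gcongr

lemma closed_FF {d : ℕ} {A B : Set (EuclideanSpace ℝ (Fin d))} (δ : ℝ) (i : A ⊕ B) :
    IsClosed (FF δ i) := by
  apply (closed_PP d).inter
  exact isClosed_le continuous_const (continuous_gg_right i)

lemma compact_FF {d : ℕ} {A B : Set (EuclideanSpace ℝ (Fin d))} {δ : ℝ} (hδ : 0 < δ) (a : A) :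
    IsCompact (FF (B := B) δ (Sum.inl a)) := by
  have hc : IsCompact ((closedBall (a : EuclideanSpace ℝ (Fin d)) 1) ×ˢ
      (Icc (-(‖(a : EuclideanSpace ℝ (Fin d))‖ + 1) ^ 2) (1 : ℝ))) :=
    (isCompact_closedBall _ _).prod isCompact_Icc
  apply hc.of_isClosed_subset (closed_FF _ _)
  rintro ⟨c, t⟩ ⟨hp, hq⟩
  simp only [PP, mem_ofPred_eq] at hp
  simp only [mem_ofPred_eq, gg, Sum.elim_inl, mg_eq] at hq
  have h1 : ‖(a : EuclideanSpace ℝ (Fin d)) - c‖ ^ 2 ≤ 1 := by nlinarith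
  have h2 : ‖(a : EuclideanSpace ℝ (Fin d)) - c‖ ≤ 1 := by
    have := norm_nonneg ((a : EuclideanSpace ℝ (Fin d)) - c)
    nlinarith
  have h3 : ‖c‖ ≤ ‖(a : EuclideanSpace ℝ (Fin d))‖ + 1 := by
    have : c = (a : EuclideanSpace ℝ (Fin d)) - ((a : EuclideanSpace ℝ (Fin d)) - c) := by abel
    calc ‖c‖ = ‖(a : EuclideanSpace ℝ (Fin d)) - ((a : EuclideanSpace ℝ (Fin d)) - c)‖ := by
          rw [← this]
      _ ≤ _ := (norm_sub_le _ _).trans (by linarith)
  have h4 : ‖c‖ ^ 2 ≤ (‖(a : EuclideanSpace ℝ (Fin d))‖ + 1) ^ 2 := by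
    apply pow_le_pow_left₀ (norm_nonneg _) h3
  refine ⟨?_, ?_, ?_⟩
  · simp only [mem_closedBall, dist_eq_norm]
    rw [norm_sub_rev]; exact h2
  · have := sq_nonneg ‖(a : EuclideanSpace ℝ (Fin d)) - c‖
    simp only
    nlinarith
  · have := sq_nonneg ‖c‖
    simp only
    nlinarith

/-- A compact set lies outside some closed unit ball when `1 ≤ d`. -/
lemma exists_far {d : ℕ} (hd : 1 ≤ d) {B : Set (EuclideanSpace ℝ (Fin d))} (hB : IsCompact B) :
    ∃ c : EuclideanSpace ℝ (Fin d), ∀ b ∈ B, 1 < ‖b - c‖ := by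
  obtain ⟨R, hR⟩ := hB.isBounded.exists_norm_le
  have : Nonempty (Fin d) := ⟨⟨0, hd⟩⟩
  have : Nontrivial (EuclideanSpace ℝ (Fin d)) := by infer_instance
  obtain ⟨c, hc⟩ := exists_norm_eq (EuclideanSpace ℝ (Fin d)) (c := |R| + 2) (by positivity)
  refine ⟨c, fun b hb => ?_⟩
  have h1 := hR b hb
  have h2 : ‖c‖ ≤ ‖b‖ + ‖b - c‖ := by
    have : c = b - (b - c) := by abel
    calc ‖c‖ = ‖b - (b - c)‖ := by rw [← this]
      _ ≤ _ := norm_sub_le _ _
  have h3 := le_abs_self R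
  linarith

lemma separable_of_bounds {d : ℕ} {X Y : Set (EuclideanSpace ℝ (Fin d))}
    (c : EuclideanSpace ℝ (Fin d)) (r : ℝ) (hr : 0 < r) (hr1 : r ≤ 1)
    (hX : ∀ x ∈ X, ‖x - c‖ < r) (hY : ∀ y ∈ Y, r < ‖y - c‖) : SmallSphereSeparable X Y := by
  have h1 : X ⊆ ball c r := fun x hx => by
    rw [mem_ball, dist_eq_norm]; exact hX x hx
  have h2 : Y ⊆ (closedBall c r)ᶜ := fun y hy => by
    rw [mem_compl_iff, mem_closedBall, dist_eq_norm, not_le]; exact hY y hy
  refine ⟨c, r, hr, hr1, ⟨?_, ?_, Or.inl ⟨h1, h2⟩⟩, h1⟩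
  · rw [Set.disjoint_left]
    intro x hx hs
    have := hX x hx
    rw [mem_sphere, dist_eq_norm] at hs
    linarith
  · rw [Set.disjoint_left]
    intro x hx hs
    have := hY x hx
    rw [mem_sphere, dist_eq_norm] at hs
    linarith

/-- small separable pairs are preserved under shrinking both sets -/
lemma SmallSphereSeparable.mono {d : ℕ} {X Y X' Y' : Set (EuclideanSpace ℝ (Fin d))}
    (h : SmallSphereSeparable X Y) (hX : X' ⊆ X) (hY : Y' ⊆ Y) : SmallSphereSeparable X' Y' := by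
  obtain ⟨c, r, hr, hr1, ⟨h1, h2, h3⟩, h4⟩ := h
  refine ⟨c, r, hr, hr1, ⟨h1.mono_left hX, h2.mono_left hY, ?_⟩, hX.trans h4⟩
  rcases h3 with ⟨h3, h5⟩ | ⟨h3, h5⟩
  · exact Or.inl ⟨hX.trans h3, hY.trans h5⟩
  · exact Or.inr ⟨hY.trans h3, hX.trans h5⟩

lemma bounds_of_separable {d : ℕ} {X Y : Set (EuclideanSpace ℝ (Fin d))}
    (h : SmallSphereSeparable X Y) (hne : X.Nonempty) :
    ∃ (c : EuclideanSpace ℝ (Fin d)) (r : ℝ), 0 < r ∧ r ≤ 1 ∧
      (∀ x ∈ X, ‖x - c‖ < r) ∧ (∀ y ∈ Y, r < ‖y - c‖) := by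
  obtain ⟨c, r, hr, hr1, ⟨_, _, h3⟩, h4⟩ := h
  rcases h3 with ⟨h3, h5⟩ | ⟨h3, h5⟩
  · refine ⟨c, r, hr, hr1, ?_, ?_⟩
    · intro x hx
      have := h3 hx
      rwa [mem_ball, dist_eq_norm] at this
    · intro y hy
      have := h5 hy
      rwa [mem_compl_iff, mem_closedBall, dist_eq_norm, not_le] at this
  · obtain ⟨x, hx⟩ := hne
    have h6 := h4 hx
    have h7 := h5 hx
    exact absurd (ball_subset_closedBall h6) h7

/-- **Kirchberger-type theorem for separation of compact sets by small spheres.** -/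
theorem result {d : ℕ} (hd : 1 ≤ d) (A B : Set (EuclideanSpace ℝ (Fin d)))
    (hA : IsCompact A) (hB : IsCompact B) :
    SmallSphereSeparable A B ↔
      ∀ T : Set (EuclideanSpace ℝ (Fin d)), T ⊆ A ∪ B → T.encard ≤ d + 2 →
        SmallSphereSeparable (T ∩ A) (T ∩ B) := by
  constructor
  · intro h T _ _
    exact h.mono inter_subset_right inter_subset_right
  intro hT
  -- the case `A = ∅`
  rcases A.eq_empty_or_nonempty with hAe | ⟨a0, ha0⟩
  · obtain ⟨c, hc⟩ := exists_far hd hB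
    exact separable_of_bounds c 1 one_pos le_rfl (by simp [hAe]) hc
  have : CompactSpace A := isCompact_iff_compactSpace.mp hA
  have : CompactSpace B := isCompact_iff_compactSpace.mp hB
  -- local margins
  have hloc : ∀ u : Fin (d + 2) → A ⊕ B, ∃ p ∈ PP d, ∀ j, 0 < gg (u j) p := by
    intro u
    let v : A ⊕ B → EuclideanSpace ℝ (Fin d) := Sum.elim (fun a => a.1) (fun b => b.1)
    let T : Set (EuclideanSpace ℝ (Fin d)) := range (fun j => v (u j))
    have hTsub : T ⊆ A ∪ B := by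
      rintro x ⟨j, rfl⟩
      rcases h : u j with a | b
      · left; simp only [h, v, Sum.elim_inl]; exact a.2
      · right; simp only [h, v, Sum.elim_inr]; exact b.2
    have hTcard : T.encard ≤ d + 2 := by
      have : T = (fun j => v (u j)) '' univ := by simp [T]
      rw [this]
      refine (encard_image_le _ _).trans ?_
      rw [encard_univ]
      simp
    have hTs := hT T hTsub hTcard
    rcases (T ∩ A).eq_empty_or_nonempty with he | hne
    · obtain ⟨c, hc⟩ := exists_far hd hB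
      refine ⟨(c, 1 - ‖c‖ ^ 2), ?_, ?_⟩
      · simp [PP]
      · intro j
        rcases h : u j with a | b
        · exfalso
          have : (a : EuclideanSpace ℝ (Fin d)) ∈ T ∩ A := by
            refine ⟨⟨j, ?_⟩, a.2⟩
            simp [h, v]
          rw [he] at this
          exact this
        · simp only [gg, Sum.elim_inr, mg_eq]
          have := hc b b.2
          nlinarith
    · obtain ⟨c, r, hr, hr1, h1, h2⟩ := bounds_of_separable hTs hne
      refine ⟨(c, r ^ 2 - ‖c‖ ^ 2), ?_, ?_⟩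
      · simp only [PP, mem_ofPred_eq]
        nlinarith
      · intro j
        rcases h : u j with a | b
        · have h3 : (a : EuclideanSpace ℝ (Fin d)) ∈ T ∩ A := by
            refine ⟨⟨j, ?_⟩, a.2⟩
            simp [h, v]
          have h4 := h1 _ h3
          simp only [gg, Sum.elim_inl, mg_eq]
          have := norm_nonneg ((a : EuclideanSpace ℝ (Fin d)) - c)
          nlinarith
        · have h3 : (b : EuclideanSpace ℝ (Fin d)) ∈ T ∩ B := by
            refine ⟨⟨j, ?_⟩, b.2⟩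
            simp [h, v]
          have h4 := h2 _ h3
          simp only [gg, Sum.elim_inr, mg_eq]
          nlinarith
  -- uniform margin
  obtain ⟨N, hN⟩ : ∃ N : ℕ, ∀ u : Fin (d + 2) → A ⊕ B, ∃ p ∈ PP d,
      ∀ j, 1 / ((N : ℝ) + 1) < gg (u j) p := by
    let U : ℕ → Set (Fin (d + 2) → A ⊕ B) := fun n =>
      {u | ∃ p ∈ PP d, ∀ j, 1 / ((n : ℝ) + 1) < gg (u j) p}
    have hUo : ∀ n, IsOpen (U n) := by
      intro n
      have : U n = ⋃ p ∈ PP d, ⋂ j, {u | 1 / ((n : ℝ) + 1) < gg (u j) p} := by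
        ext u; simp [U]
      rw [this]
      apply isOpen_biUnion
      intro p _
      apply isOpen_iInter_of_finite
      intro j
      exact isOpen_lt continuous_const ((continuous_gg_left p).comp (continuous_apply j))
    have hUc : (univ : Set (Fin (d + 2) → A ⊕ B)) ⊆ ⋃ n, U n := by
      intro u _
      obtain ⟨p, hp, hj⟩ := hloc u
      have hex : ∀ j, ∃ n : ℕ, 1 / ((n : ℝ) + 1) < gg (u j) p := fun j =>
        exists_nat_one_div_lt (hj j)
      choose n hn using hex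
      simp only [mem_iUnion]
      refine ⟨Finset.univ.sup n, p, hp, fun j => ?_⟩
      refine lt_of_le_of_lt ?_ (hn j)
      apply one_div_le_one_div_of_le (by positivity)
      have : n j ≤ Finset.univ.sup n := Finset.le_sup (Finset.mem_univ j)
      gcongr
    have hUd : Directed (· ⊆ ·) U := by
      apply Monotone.directed_le
      intro m n hmn u hu
      obtain ⟨p, hp, hj⟩ := hu
      refine ⟨p, hp, fun j => lt_of_le_of_lt ?_ (hj j)⟩
      apply one_div_le_one_div_of_le (by positivity)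
      gcongr
    obtain ⟨N, hN⟩ := isCompact_univ.elim_directed_cover U hUo hUc hUd
    exact ⟨N, fun u => hN (mem_univ u)⟩
  set δ : ℝ := 1 / ((N : ℝ) + 1) with hδ
  have hδ0 : 0 < δ := by positivity
  have hfr : Module.finrank ℝ (EuclideanSpace ℝ (Fin d) × ℝ) + 1 = d + 2 := by
    simp
  have hHelly : ∀ s : Finset (A ⊕ B), (⋂ i ∈ s, FF δ i).Nonempty := by
    intro s
    apply Convex.helly_theorem' (𝕜 := ℝ) (s := s) (F := fun i => FF δ i)
      (fun i _ => convex_FF δ i)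
    intro I _ hI
    rw [hfr] at hI
    rcases I.eq_empty_or_nonempty with hIe | hIne
    · subst hIe
      simp
    · -- a surjection from `Fin (d+2)` onto `I`
      obtain ⟨u, hu⟩ : ∃ u : Fin (d + 2) → A ⊕ B, ∀ i ∈ I, ∃ j, u j = i := by
        have : Nonempty I := hIne.to_subtype
        obtain ⟨f, hf⟩ := (Function.Embedding.nonempty_of_card_le
          (α := I) (β := Fin (d + 2)) (by simpa using hI)).elim fun e =>
            (⟨Function.invFun e, Function.invFun_surjective e.injective⟩ :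
              ∃ f : Fin (d + 2) → I, Function.Surjective f)
        refine ⟨fun j => (f j : A ⊕ B), fun i hi => ?_⟩
        obtain ⟨j, hj⟩ := hf ⟨i, hi⟩
        exact ⟨j, by simp [hj]⟩
      obtain ⟨p, hp, hj⟩ := hN u
      refine ⟨p, ?_⟩
      simp only [mem_iInter]
      intro i hi
      obtain ⟨j, rfl⟩ := hu i hi
      exact ⟨hp, (hj j).le⟩
  have hall : (FF δ (Sum.inl ⟨a0, ha0⟩ : A ⊕ B) ∩ ⋂ i : A ⊕ B, FF δ i).Nonempty := by
    apply (compact_FF hδ0 ⟨a0, ha0⟩).inter_iInter_nonempty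
    · intro i; exact closed_FF δ i
    · intro s
      classical
      have := hHelly (insert (Sum.inl ⟨a0, ha0⟩) s)
      simpa using this
  obtain ⟨⟨c, t⟩, _, hp⟩ := hall
  simp only [mem_iInter] at hp
  have hPP : t + ‖c‖ ^ 2 ≤ 1 := (hp (Sum.inl ⟨a0, ha0⟩)).1
  have hAa : ∀ a ∈ A, δ ≤ t + ‖c‖ ^ 2 - ‖a - c‖ ^ 2 := by
    intro a ha
    have := (hp (Sum.inl ⟨a, ha⟩)).2
    simpa [gg, mg_eq] using this
  have hBb : ∀ b ∈ B, δ ≤ -(t + ‖c‖ ^ 2 - ‖b - c‖ ^ 2) := by
    intro b hb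
    have := (hp (Sum.inr ⟨b, hb⟩)).2
    simpa only [gg, mg_eq, mem_ofPred_eq, Sum.elim_inr] using this
  have ht : 0 < t + ‖c‖ ^ 2 := by
    have := hAa a0 ha0
    have := sq_nonneg ‖a0 - c‖
    linarith
  set r := Real.sqrt (t + ‖c‖ ^ 2) with hr
  have hr0 : 0 < r := Real.sqrt_pos.mpr ht
  have hr2 : r ^ 2 = t + ‖c‖ ^ 2 := Real.sq_sqrt ht.le
  have hr1 : r ≤ 1 := by
    rw [hr]
    exact Real.sqrt_le_one.mpr hPP
  refine separable_of_bounds c r hr0 hr1 ?_ ?_
  · intro a ha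
    have := hAa a ha
    have h5 : ‖a - c‖ ^ 2 < r ^ 2 := by rw [hr2]; linarith
    exact lt_of_pow_lt_pow_left₀ 2 hr0.le h5
  · intro b hb
    have := hBb b hb
    have h5 : r ^ 2 < ‖b - c‖ ^ 2 := by rw [hr2]; linarith
    exact lt_of_pow_lt_pow_left₀ 2 (norm_nonneg _) h5

end Pool.Agent.Results.MP_f10258_co.CompactKirchberger
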